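import Mathlib

set_option autoImplicit false

namespace Pool.Agent.Work.MP_1aa7fe_lc

open scoped ENNReal

/-- A trajectory on the half-line, given by its turning points. -/
structure Trajectory where
  t : ℕ → ℝ
  t_zero : t 0 = 0
  nonneg : ∀ i, 0 ≤ t i
  outward : ∀ i, t (2 * i) < t (2 * i + 1)
  inward : ∀ i, t (2 * i + 2) < t (2 * i + 1)

open Classical in
/-- Probability of detecting a treasure at `d` on leg `j` (from `t j` to `t (j+1)`): `1` if the
leg ends by turning exactly at `d`, `p` if it passes over `d`, and `0` if it does not reach `d`. -/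
noncomputable def detect (p : ℝ) (T : Trajectory) (d : ℝ) (j : ℕ) : ℝ :=
  if T.t (j + 1) = d then 1
  else if min (T.t j) (T.t (j + 1)) < d ∧ d < max (T.t j) (T.t (j + 1)) then p else 0

/-- Probability that the treasure is still undetected when leg `j` starts. -/
noncomputable def survive (p : ℝ) (T : Trajectory) (d : ℝ) (j : ℕ) : ℝ :=
  ∏ i ∈ Finset.range j, (1 - detect p T d i)

/-- Time at which the unit speed searcher is at `d` on leg `j` (when leg `j` reaches `d`). -/
noncomputable def passTime (T : Trajectory) (d : ℝ) (j : ℕ) : ℝ :=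
  (∑ i ∈ Finset.range j, |T.t (i + 1) - T.t i|) + |d - T.t j|

/-- Expected time of first detection; it is infinite if the treasure is missed forever with
positive probability. -/
noncomputable def expTime (p : ℝ) (T : Trajectory) (d : ℝ) : ℝ≥0∞ :=
  (∑' j, ENNReal.ofReal (survive p T d j * detect p T d j * passTime T d j)) +
    ⊤ * ⨅ j, ENNReal.ofReal (survive p T d j)

/-- Competitive ratio: the supremum over `d ≥ 1` of `p * E(d) / d`. -/
noncomputable def ratio (p : ℝ) (T : Trajectory) : ℝ≥0∞ :=
  ⨆ (d : ℝ) (_ : 1 ≤ d), ENNReal.ofReal p * expTime p T d / ENNReal.ofReal d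

end Pool.Agent.Work.MP_1aa7fe_lc
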