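import Pool.Agent.Work.MP_1aa7fe_lc.Defs

set_option autoImplicit false

namespace Pool.Agent.Work.MP_1aa7fe_lc

open scoped ENNReal
open Finset

/-- turning points of one cycle -/
noncomputable def cc : ℕ → ℝ
  | 1 => 6 / 5
  | 2 => 1
  | 3 => 5 / 3
  | 4 => 18 / 25
  | 5 => 33 / 40
  | _ => 0

noncomputable def tt (n : ℕ) : ℝ := (5 / 3 : ℝ) ^ (n / 6) * cc (n % 6)

theorem tt_eq (k r : ℕ) (hr : r ≤ 6) : tt (6 * k + r) = (5 / 3 : ℝ) ^ k * cc r := by
  rcases hr.lt_or_eq with h | h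
  · unfold tt
    have h1 : (6 * k + r) / 6 = k := by omega
    have h2 : (6 * k + r) % 6 = r := by omega
    rw [h1, h2]
  · subst h
    unfold tt
    have h2 : (6 * k + 6) % 6 = 0 := by omega
    rw [h2]; simp [cc]

theorem pw_pos (k : ℕ) : (0 : ℝ) < (5 / 3 : ℝ) ^ k := by positivity

noncomputable def TT : Trajectory where
  t := tt
  t_zero := by simp [tt, cc]
  nonneg := by
    intro i
    unfold tt
    refine mul_nonneg (pw_pos _).le ?_
    have : i % 6 < 6 := Nat.mod_lt _ (by norm_num)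
    generalize i % 6 = r at this
    interval_cases r <;> norm_num [cc]
  outward := by
    intro i
    obtain ⟨k, r, hr, rfl⟩ : ∃ k r, r < 3 ∧ i = 3 * k + r := ⟨i / 3, i % 3, by omega, by omega⟩
    have e1 : 2 * (3 * k + r) = 6 * k + 2 * r := by ring
    have e2 : 6 * k + 2 * r + 1 = 6 * k + (2 * r + 1) := by ring
    rw [e1, e2, tt_eq k _ (by omega), tt_eq k _ (by omega)]
    refine mul_lt_mul_of_pos_left ?_ (pw_pos k)
    interval_cases r <;> norm_num [cc]
  inward := by
    intro i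
    obtain ⟨k, r, hr, rfl⟩ : ∃ k r, r < 3 ∧ i = 3 * k + r := ⟨i / 3, i % 3, by omega, by omega⟩
    have e1 : 2 * (3 * k + r) + 2 = 6 * k + (2 * r + 2) := by ring
    have e2 : 2 * (3 * k + r) + 1 = 6 * k + (2 * r + 1) := by ring
    rw [e1, e2, tt_eq k _ (by omega), tt_eq k _ (by omega)]
    refine mul_lt_mul_of_pos_left ?_ (pw_pos k)
    interval_cases r <;> norm_num [cc]

open Classical in
noncomputable def QQ (r : ℕ) (y : ℝ) : ℝ :=
  if cc (r + 1) = y then 1
  else if min (cc r) (cc (r + 1)) < y ∧ y < max (cc r) (cc (r + 1)) then 2 / 5 else 0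

theorem detect_eq (k r : ℕ) (hr : r < 6) (y : ℝ) :
    detect (2 / 5) TT ((5 / 3 : ℝ) ^ k * y) (6 * k + r) = QQ r y := by
  have hs := pw_pos k
  unfold detect QQ
  have e1 : TT.t (6 * k + r) = (5 / 3 : ℝ) ^ k * cc r := tt_eq k r hr.le
  have e2 : TT.t (6 * k + r + 1) = (5 / 3 : ℝ) ^ k * cc (r + 1) := tt_eq k (r + 1) hr
  rw [e1, e2, ← mul_min_of_nonneg _ _ hs.le, ← mul_max_of_nonneg _ _ hs.le]
  simp only [mul_right_inj' hs.ne', mul_lt_mul_iff_right₀ hs]

noncomputable def sg : ℕ → ℝ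
  | 0 => 0
  | 1 => 6 / 5
  | 2 => 7 / 5
  | 3 => 31 / 15
  | 4 => 226 / 75
  | 5 => 1871 / 600
  | _ => 1183 / 300

theorem sg_succ (r : ℕ) (hr : r < 6) : sg (r + 1) = sg r + |cc (r + 1) - cc r| := by
  interval_cases r <;> norm_num [sg, cc, abs_of_nonneg, abs_of_nonpos]

theorem start_step (k : ℕ) (S : ℝ) (h : ∑ i ∈ range (6 * k), |tt (i + 1) - tt i| = S) (r : ℕ)
    (hr : r ≤ 6) : ∑ i ∈ range (6 * k + r), |tt (i + 1) - tt i| = S + (5 / 3 : ℝ) ^ k * sg r := by
  induction r with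
  | zero => simp [h, sg]
  | succ r ih =>
    rw [← add_assoc, sum_range_succ, ih (by omega), sg_succ r (by omega), tt_eq k r (by omega),
      add_assoc (6 * k), tt_eq k (r + 1) hr, ← mul_sub, abs_mul, abs_of_pos (pw_pos k)]
    ring

theorem start_eq (k : ℕ) :
    ∑ i ∈ range (6 * k), |tt (i + 1) - tt i| = 1183 / 200 * ((5 / 3 : ℝ) ^ k - 1) := by
  induction k with
  | zero => simp
  | succ k ih =>
    have := start_step k _ ih 6 le_rfl
    rw [show 6 * (k + 1) = 6 * k + 6 by ring, this]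
    simp only [sg]
    ring

noncomputable def th (r : ℕ) (y : ℝ) : ℝ := 1183 / 200 + sg r + |y - cc r|

theorem passTime_le (k r : ℕ) (hr : r < 6) (y : ℝ) :
    passTime TT ((5 / 3 : ℝ) ^ k * y) (6 * k + r) ≤ (5 / 3 : ℝ) ^ k * th r y := by
  unfold passTime th
  have e1 : TT.t (6 * k + r) = (5 / 3 : ℝ) ^ k * cc r := tt_eq k r hr.le
  have e2 : ∑ i ∈ range (6 * k + r), |TT.t (i + 1) - TT.t i| = _ :=
    start_step k _ (start_eq k) r hr.le
  rw [e1, e2, ← mul_sub, abs_mul, abs_of_pos (pw_pos k)]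
  linarith only []

/-- the supersolution -/
noncomputable def ww (y : ℝ) : ℝ :=
  if y < 18 / 25 then 1183 / 100 + y / 4
  else if y < 33 / 40 then 115883 / 12500 + y / 4
  else if y < 1 then 29449 / 2500 + y / 4
  else 357 / 40 * y

theorem ww_ge {y : ℝ} (hy : 0 < y) : 1 ≤ ww y := by
  unfold ww; split_ifs <;> linarith

noncomputable def FF (y V : ℝ) : ℝ :=
  QQ 0 y * th 0 y + (1 - QQ 0 y) * (QQ 1 y * th 1 y + (1 - QQ 1 y) * (QQ 2 y * th 2 y +
    (1 - QQ 2 y) * (QQ 3 y * th 3 y + (1 - QQ 3 y) * (QQ 4 y * th 4 y + (1 - QQ 4 y) *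
      (QQ 5 y * th 5 y + (1 - QQ 5 y) * V)))))

theorem QQ_in {r : ℕ} {y : ℝ} (h1 : min (cc r) (cc (r + 1)) < y) (h2 : y < max (cc r) (cc (r + 1))) :
    QQ r y = 2 / 5 := by
  unfold QQ
  rw [if_neg, if_pos ⟨h1, h2⟩]
  intro h
  rw [h] at h1 h2
  rcases le_total (cc r) y with h3 | h3
  · rw [max_eq_right h3] at h2; exact lt_irrefl _ h2
  · rw [min_eq_right h3] at h1; exact lt_irrefl _ h1

theorem QQ_lo {r : ℕ} {y : ℝ} (h1 : y < min (cc r) (cc (r + 1))) : QQ r y = 0 := by
  unfold QQ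
  rw [if_neg, if_neg]
  · rintro ⟨h, _⟩; linarith
  · intro h; have := min_le_right (cc r) (cc (r + 1)); linarith

theorem QQ_hi {r : ℕ} {y : ℝ} (h1 : max (cc r) (cc (r + 1)) < y) : QQ r y = 0 := by
  unfold QQ
  rw [if_neg, if_neg]
  · rintro ⟨_, h⟩; linarith
  · intro h; have := le_max_right (cc r) (cc (r + 1)); linarith

theorem mm0 : min (cc 0) (cc (0 + 1)) = 0 ∧ max (cc 0) (cc (0 + 1)) = 6 / 5 := by norm_num [cc]
theorem mm1 : min (cc 1) (cc (1 + 1)) = 1 ∧ max (cc 1) (cc (1 + 1)) = 6 / 5 := by norm_num [cc]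
theorem mm2 : min (cc 2) (cc (2 + 1)) = 1 ∧ max (cc 2) (cc (2 + 1)) = 5 / 3 := by norm_num [cc]
theorem mm3 : min (cc 3) (cc (3 + 1)) = 18 / 25 ∧ max (cc 3) (cc (3 + 1)) = 5 / 3 := by
  norm_num [cc]
theorem mm4 : min (cc 4) (cc (4 + 1)) = 18 / 25 ∧ max (cc 4) (cc (4 + 1)) = 33 / 40 := by
  norm_num [cc]
theorem mm5 : min (cc 5) (cc (5 + 1)) = 0 ∧ max (cc 5) (cc (5 + 1)) = 33 / 40 := by norm_num [cc]

theorem th0 {y : ℝ} (h : 0 ≤ y) : th 0 y = 1183 / 200 + y := by
  simp only [th, sg, cc]; rw [abs_of_nonneg (by linarith)]; ring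
theorem th1 {y : ℝ} (h : y ≤ 6 / 5) : th 1 y = 1183 / 200 + 12 / 5 - y := by
  simp only [th, sg, cc]; rw [abs_of_nonpos (by linarith only [h])]; ring
theorem th2 {y : ℝ} (h : 1 ≤ y) : th 2 y = 1183 / 200 + 2 / 5 + y := by
  simp only [th, sg, cc]; rw [abs_of_nonneg (by linarith)]; ring
theorem th3 {y : ℝ} (h : y ≤ 5 / 3) : th 3 y = 1183 / 200 + 56 / 15 - y := by
  simp only [th, sg, cc]; rw [abs_of_nonpos (by linarith only [h])]; ring
theorem th4 {y : ℝ} (h : 18 / 25 ≤ y) : th 4 y = 1183 / 200 + 172 / 75 + y := by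
  simp only [th, sg, cc]; rw [abs_of_nonneg (by linarith only [h])]; ring
theorem th5 {y : ℝ} (h : y ≤ 33 / 40) : th 5 y = 1183 / 200 + 1183 / 300 - y := by
  simp only [th, sg, cc]; rw [abs_of_nonpos (by linarith only [h])]; ring

theorem ww1 {y : ℝ} (h : y < 18 / 25) : ww y = 1183 / 100 + y / 4 := by
  unfold ww; rw [if_pos h]
theorem ww2 {y : ℝ} (h : 18 / 25 ≤ y) (h' : y < 33 / 40) : ww y = 115883 / 12500 + y / 4 := by
  unfold ww; rw [if_neg (by linarith only [h]), if_pos h']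
theorem ww3 {y : ℝ} (h : 33 / 40 ≤ y) (h' : y < 1) : ww y = 29449 / 2500 + y / 4 := by
  unfold ww; rw [if_neg (by linarith only [h, h']), if_neg (by linarith only [h]), if_pos h']
theorem ww4 {y : ℝ} (h : 1 ≤ y) : ww y = 357 / 40 * y := by
  unfold ww; rw [if_neg (by linarith only [h]), if_neg (by linarith), if_neg (by linarith)]

theorem FF_le {y : ℝ} (hy : 0 < y) : FF y (5 / 3 * ww (3 / 5 * y)) ≤ ww y := by
  unfold FF
  rcases lt_trichotomy y (18 / 25) with h1 | h1 | h1
  · rw [QQ_in (r := 0) (by rw [mm0.1]; linarith only [hy]) (by rw [mm0.2]; linarith only [hy, h1]),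
      QQ_lo (r := 1) (by rw [mm1.1]; linarith only [hy, h1]), QQ_lo (r := 2) (by rw [mm2.1]; linarith only [hy, h1]),
      QQ_lo (r := 3) (by rw [mm3.1]; linarith only [h1]), QQ_lo (r := 4) (by rw [mm4.1]; linarith only [h1]),
      QQ_in (r := 5) (by rw [mm5.1]; linarith) (by rw [mm5.2]; linarith only [hy, h1]),
      th0 (by linarith), th5 (by linarith only [hy, h1]), ww1 h1, ww1 (by linarith only [hy, h1])]
    linarith only []
  · subst h1
    norm_num [QQ, th, ww, cc, sg, abs_of_nonneg, abs_of_nonpos]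
  rcases lt_trichotomy y (33 / 40) with h2 | h2 | h2
  · rw [QQ_in (r := 0) (by rw [mm0.1]; linarith only [hy]) (by rw [mm0.2]; linarith only [hy, h2]),
      QQ_lo (r := 1) (by rw [mm1.1]; linarith only [hy, h2]), QQ_lo (r := 2) (by rw [mm2.1]; linarith only [hy, h2]),
      QQ_in (r := 3) (by rw [mm3.1]; linarith only [h1]) (by rw [mm3.2]; linarith only [hy, h2]),
      QQ_in (r := 4) (by rw [mm4.1]; linarith only [h1]) (by rw [mm4.2]; linarith only [h2]),
      QQ_in (r := 5) (by rw [mm5.1]; linarith only [hy]) (by rw [mm5.2]; linarith only [h2]),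
      th0 (by linarith only [hy]), th3 (by linarith only [hy, h2]), th4 (by linarith only [h1]), th5 (by linarith only [h2]),
      ww2 h1.le h2, ww1 (by linarith only [hy, h2])]
    linarith only []
  · subst h2
    norm_num [QQ, th, ww, cc, sg, abs_of_nonneg, abs_of_nonpos]
  rcases lt_trichotomy y 1 with h3 | h3 | h3
  · rw [QQ_in (r := 0) (by rw [mm0.1]; linarith only [h2, h3]) (by rw [mm0.2]; linarith only [h2, h3]),
      QQ_lo (r := 1) (by rw [mm1.1]; linarith only [h3]), QQ_lo (r := 2) (by rw [mm2.1]; linarith only [h3]),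
      QQ_in (r := 3) (by rw [mm3.1]; linarith only [h2, h3]) (by rw [mm3.2]; linarith only [h2, h3]),
      QQ_hi (r := 4) (by rw [mm4.2]; linarith only [h2]), QQ_hi (r := 5) (by rw [mm5.2]; linarith only [h2]),
      th0 (by linarith only [h2, h3]), th3 (by linarith only [h2, h3]), ww3 h2.le h3, ww1 (by linarith only [h2, h3])]
    linarith only []
  · subst h3
    norm_num [QQ, th, ww, cc, sg, abs_of_nonneg, abs_of_nonpos]
  rcases lt_trichotomy y (6 / 5) with h4 | h4 | h4
  · rw [QQ_in (r := 0) (by rw [mm0.1]; linarith only [h3, h4]) (by rw [mm0.2]; linarith only [h4]),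
      QQ_in (r := 1) (by rw [mm1.1]; linarith only [h3]) (by rw [mm1.2]; linarith only [h4]),
      QQ_in (r := 2) (by rw [mm2.1]; linarith only [h3]) (by rw [mm2.2]; linarith only [h3, h4]),
      QQ_in (r := 3) (by rw [mm3.1]; linarith only [h3, h4]) (by rw [mm3.2]; linarith only [h3, h4]),
      QQ_hi (r := 4) (by rw [mm4.2]; linarith only [h3, h4]), QQ_hi (r := 5) (by rw [mm5.2]; linarith only [h3, h4]),
      th0 (by linarith only [h3, h4]), th1 (by linarith only [h4]), th2 (by linarith only [h3]), th3 (by linarith only [h3, h4]),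
      ww4 h3.le, ww1 (by linarith only [h4])]
    linarith only [h3, h4]
  · subst h4
    norm_num [QQ, th, ww, cc, sg, abs_of_nonneg, abs_of_nonpos]
  rcases lt_trichotomy y (5 / 3) with h5 | h5 | h5
  · rw [QQ_hi (r := 0) (by rw [mm0.2]; linarith only [h4]), QQ_hi (r := 1) (by rw [mm1.2]; linarith only [h4]),
      QQ_in (r := 2) (by rw [mm2.1]; linarith only [h3]) (by rw [mm2.2]; linarith only [h5]),
      QQ_in (r := 3) (by rw [mm3.1]; linarith only [h3, h5]) (by rw [mm3.2]; linarith only [h5]),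
      QQ_hi (r := 4) (by rw [mm4.2]; linarith only [h3, h5]), QQ_hi (r := 5) (by rw [mm5.2]; linarith only [h3, h5]),
      th2 (by linarith only [h3]), th3 (by linarith only [h5]), ww4 h3.le]
    rcases lt_or_ge y (11 / 8) with h6 | h6
    · rw [ww2 (by linarith only [h4]) (by linarith only [h6])]; linarith only [h3, h4]
    · rw [ww3 (by linarith only [h6]) (by linarith only [h5])]; linarith only [h3, h6]
  · subst h5
    norm_num [QQ, th, ww, cc, sg, abs_of_nonneg, abs_of_nonpos]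
  · rw [QQ_hi (r := 0) (by rw [mm0.2]; linarith only [h4]), QQ_hi (r := 1) (by rw [mm1.2]; linarith only [h4]),
      QQ_hi (r := 2) (by rw [mm2.2]; linarith only [h5]), QQ_hi (r := 3) (by rw [mm3.2]; linarith only [h5]),
      QQ_hi (r := 4) (by rw [mm4.2]; linarith only [h3]), QQ_hi (r := 5) (by rw [mm5.2]; linarith only [h3]),
      ww4 h3.le, ww4 (by linarith only [h5])]
    linarith only []

theorem detect_mem (T : Trajectory) (d : ℝ) (j : ℕ) :
    0 ≤ detect (2 / 5) T d j ∧ detect (2 / 5) T d j ≤ 1 := by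
  unfold detect; split_ifs <;> norm_num

theorem survive_nonneg (T : Trajectory) (d : ℝ) (j : ℕ) : 0 ≤ survive (2 / 5) T d j :=
  prod_nonneg fun i _ => by linarith only [(detect_mem T d i).2]

theorem passTime_nonneg (T : Trajectory) (d : ℝ) (j : ℕ) : 0 ≤ passTime T d j :=
  add_nonneg (sum_nonneg fun _ _ => abs_nonneg _) (abs_nonneg _)

theorem survive_succ (T : Trajectory) (d : ℝ) (j : ℕ) :
    survive (2 / 5) T d (j + 1) = survive (2 / 5) T d j * (1 - detect (2 / 5) T d j) :=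
  prod_range_succ _ _

/-- one leg -/
theorem leg_step (T : Trajectory) (d : ℝ) (j : ℕ) (V τ q : ℝ) (hq : detect (2 / 5) T d j = q)
    (hτ : passTime T d j ≤ τ) :
    ∑ i ∈ range (j + 1), survive (2 / 5) T d i * detect (2 / 5) T d i * passTime T d i +
        survive (2 / 5) T d (j + 1) * V ≤
      ∑ i ∈ range j, survive (2 / 5) T d i * detect (2 / 5) T d i * passTime T d i +
        survive (2 / 5) T d j * (q * τ + (1 - q) * V) := by
  rw [sum_range_succ, survive_succ, ← hq]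
  have h1 := mul_le_mul_of_nonneg_left hτ
    (mul_nonneg (survive_nonneg T d j) (detect_mem T d j).1)
  linarith only [h1]

theorem cycles {d : ℝ} (hd : 0 < d) (K : ℕ) :
    ∑ i ∈ range (6 * K), survive (2 / 5) TT d i * detect (2 / 5) TT d i * passTime TT d i +
      survive (2 / 5) TT d (6 * K) * ((5 / 3 : ℝ) ^ K * ww (d / (5 / 3 : ℝ) ^ K)) ≤ ww d := by
  induction K with
  | zero => simp [survive]
  | succ k ih =>
    refine le_trans ?_ ih
    have hs := pw_pos k
    set y := d / (5 / 3 : ℝ) ^ k with hy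
    have hd' : d = (5 / 3 : ℝ) ^ k * y := by rw [hy]; field_simp
    have hy0 : 0 < y := div_pos hd hs
    have e : d / (5 / 3 : ℝ) ^ (k + 1) = 3 / 5 * y := by rw [hy, pow_succ]; field_simp
    rw [e]
    have q := fun r hr => hd' ▸ detect_eq k r hr y
    have t := fun r hr => hd' ▸ passTime_le k r hr y
    rw [show 6 * (k + 1) = 6 * k + 5 + 1 by ring]
    refine (leg_step TT d (6 * k + 5) _ _ _ (q 5 (by norm_num)) (t 5 (by norm_num))).trans ?_
    refine (leg_step TT d (6 * k + 4) _ _ _ (q 4 (by norm_num)) (t 4 (by norm_num))).trans ?_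
    refine (leg_step TT d (6 * k + 3) _ _ _ (q 3 (by norm_num)) (t 3 (by norm_num))).trans ?_
    refine (leg_step TT d (6 * k + 2) _ _ _ (q 2 (by norm_num)) (t 2 (by norm_num))).trans ?_
    refine (leg_step TT d (6 * k + 1) _ _ _ (q 1 (by norm_num)) (t 1 (by norm_num))).trans ?_
    refine (leg_step TT d (6 * k) _ _ _ (q 0 (by norm_num)) (t 0 (by norm_num))).trans ?_
    refine add_le_add le_rfl (mul_le_mul_of_nonneg_left ?_ (survive_nonneg _ _ _))
    have h1 := mul_le_mul_of_nonneg_left (FF_le hy0) hs.le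
    refine le_trans (le_of_eq ?_) h1
    unfold FF
    ring

theorem expTime_le {d : ℝ} (hd : 1 ≤ d) :
    expTime (2 / 5) TT d ≤ ENNReal.ofReal (357 / 40 * d) := by
  have hd0 : 0 < d := by linarith
  have hnn : ∀ i, 0 ≤ survive (2 / 5) TT d i * detect (2 / 5) TT d i * passTime TT d i :=
    fun i => mul_nonneg (mul_nonneg (survive_nonneg _ _ _) (detect_mem _ _ _).1)
      (passTime_nonneg _ _ _)
  have hw : ∀ K : ℕ, (5 / 3 : ℝ) ^ K ≤ (5 / 3 : ℝ) ^ K * ww (d / (5 / 3 : ℝ) ^ K) := fun K =>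
    le_mul_of_one_le_right (pw_pos K).le (ww_ge (div_pos hd0 (pw_pos K)))
  have hc : ∀ K : ℕ, ∑ i ∈ range (6 * K),
      survive (2 / 5) TT d i * detect (2 / 5) TT d i * passTime TT d i +
      survive (2 / 5) TT d (6 * K) * (5 / 3 : ℝ) ^ K ≤ 357 / 40 * d := fun K => by
    have h1 := cycles hd0 K
    have h2 := mul_le_mul_of_nonneg_left (hw K) (survive_nonneg TT d (6 * K))
    rw [ww4 hd] at h1
    linarith only [h1, h2]
  have hinf : (⨅ j, ENNReal.ofReal (survive (2 / 5) TT d j)) = 0 := by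
    refine le_antisymm ?_ zero_le
    have ht : Filter.Tendsto (fun K : ℕ => ENNReal.ofReal (357 / 40 * d * (3 / 5 : ℝ) ^ K))
        Filter.atTop (nhds 0) := by
      have := (tendsto_pow_atTop_nhds_zero_of_lt_one (r := (3 / 5 : ℝ)) (by norm_num)
        (by norm_num)).const_mul (357 / 40 * d)
      rw [mul_zero] at this
      simpa using ENNReal.tendsto_ofReal this
    refine ge_of_tendsto' ht fun K => (iInf_le _ (6 * K)).trans (ENNReal.ofReal_le_ofReal ?_)
    have h1 := hc K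
    have h2 : 0 ≤ ∑ i ∈ range (6 * K),
      survive (2 / 5) TT d i * detect (2 / 5) TT d i * passTime TT d i := sum_nonneg fun i _ => hnn i
    have h3 : survive (2 / 5) TT d (6 * K) * (5 / 3 : ℝ) ^ K ≤ 357 / 40 * d := by linarith only [h1, h2]
    have h4 := mul_le_mul_of_nonneg_right h3 (show (0 : ℝ) ≤ (3 / 5 : ℝ) ^ K by positivity)
    rwa [mul_assoc, ← mul_pow, show (5 / 3 * (3 / 5) : ℝ) = 1 by norm_num, one_pow, mul_one] at h4
  unfold expTime
  rw [hinf, mul_zero, add_zero]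
  refine ENNReal.tsum_le_of_sum_range_le fun n => ?_
  rw [← ENNReal.ofReal_sum_of_nonneg fun i _ => hnn i]
  refine ENNReal.ofReal_le_ofReal ?_
  have h1 := hc n
  have h2 := mul_nonneg (survive_nonneg TT d (6 * n)) (pw_pos n).le
  have h3 : ∑ i ∈ range n, survive (2 / 5) TT d i * detect (2 / 5) TT d i * passTime TT d i ≤
      ∑ i ∈ range (6 * n), survive (2 / 5) TT d i * detect (2 / 5) TT d i * passTime TT d i :=
    sum_le_sum_of_subset_of_nonneg (range_subset_range.2 (by omega)) fun i _ _ => hnn i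
  linarith only [h1, h2, h3]

theorem ratio_le : ratio (2 / 5) TT ≤ ENNReal.ofReal (357 / 100) := by
  unfold ratio
  refine iSup₂_le fun d hd => ?_
  have hd0 : 0 < d := by linarith
  refine ENNReal.div_le_of_le_mul ?_
  refine (mul_le_mul_right (expTime_le hd) _).trans (le_of_eq ?_)
  rw [← ENNReal.ofReal_mul (by norm_num), ← ENNReal.ofReal_mul (by norm_num)]
  congr 1
  ring

end Pool.Agent.Work.MP_1aa7fe_lc
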